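import Pool.Agent.helper97.AS.Spec

set_option autoImplicit false

namespace Pool.Agent.helper97.AS

open Pool.Agent.helper20.LB (Step F IsSq Same Bd co)

theorem HALF_mul {f : ℤ → ℤ} {p τ : ℤ} (h : ∀ x, f (x + p) = f x + τ) (k z : ℤ) :
    f (z + k * p) = f z + k * τ := by
  induction k using Int.induction_on with
  | zero => simp
  | succ i ih =>
    have e : z + ((i : ℤ) + 1) * p = (z + i * p) + p := by ring
    rw [e, h, ih]
    ring
  | pred i ih =>
    have e : z + (-(i : ℤ)) * p = (z + (-(i : ℤ) - 1) * p) + p := by ring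
    rw [e, h] at ih
    linarith

theorem HALF (hGAL : GAL_stmt) (hUPX : UPX_stmt) : HALF_stmt := by
  intro f p t x hPer ht
  obtain ⟨β, hβ, hβp⟩ := hGAL f p (2 * t) hPer (by omega)
  obtain ⟨hS, hp, hper⟩ := hPer
  -- values of `f` between two consecutive `β`
  have hval : ∀ i z, β i ≤ z → z ≤ β (i + 1) - 1 → f z = i := by
    intro i z h1 h2
    have h3 := (hβ i z).1 h1
    have h4 : ¬ (i + 1 ≤ f z) := by
      intro h5
      have := (hβ (i + 1) z).2 h5
      omega
    omega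
  have hstep : ∀ i, β i ≤ β (i + 1) - 1 := by
    intro i
    rw [hβ]
    have h1 := (hβ (i + 1) (β (i + 1))).1 (le_refl _)
    have h2 := (hS (β (i + 1) - 1)).2
    rw [sub_add_cancel] at h2
    omega
  obtain ⟨i, -, -, hi1, hi2⟩ := hUPX (fun i => β (i + t) - β i) (2 * t) t (by omega) ht
    (by
      intro i
      have e1 : β (i + 2 * t + t) = β (i + t) + p := by
        rw [show i + 2 * t + t = (i + t) + 2 * t by ring]
        exact hβp _
      have e2 := hβp i
      show β (i + 2 * t + t) - β (i + 2 * t) = β (i + t) - β i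
      omega) 0
  have hi1' : β (i + t + t) - β (i + t) - (β (i + t) - β i) ≤ 0 := hi1
  have hi2' : 0 ≤ β (i + 1 + t + t) - β (i + 1 + t) - (β (i + 1 + t) - β (i + 1)) := hi2
  have e1 : β (i + t + t) = β i + p := by
    rw [show i + t + t = i + 2 * t by ring]
    exact hβp _
  have e2 : β (i + 1 + t + t) = β (i + 1) + p := by
    rw [show i + 1 + t + t = (i + 1) + 2 * t by ring]
    exact hβp _
  have e3 : β (i + 1 + t) = β (i + t + 1) := by
    rw [show i + 1 + t = i + t + 1 by ring]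
  rw [e1] at hi1'
  rw [e2, e3] at hi2'
  obtain ⟨μ, hμ⟩ : ∃ μ, μ = β (i + t + 1) - 1 := ⟨_, rfl⟩
  have hst := hstep (i + t)
  obtain ⟨σ, hσ⟩ : ∃ σ, σ = (2 * μ - p + 1) / 2 := ⟨_, rfl⟩
  have hσ1 : β i ≤ σ := by omega
  have hσ2 : σ ≤ β (i + 1) - 1 := by omega
  have hε1 : β i ≤ 2 * μ - p - σ := by omega
  have hε2 : 2 * μ - p - σ ≤ β (i + 1) - 1 := by omega
  have hεσ : 2 * μ - p - σ ≤ σ := by omega
  have fσ : f σ = i := hval i σ hσ1 hσ2
  have fε' : f (2 * μ - p - σ) = i := hval i _ hε1 hε2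
  have fμ : f μ = i + t := hval (i + t) μ (by omega) (by omega)
  have fμ1 : f (μ + 1) = i + t + 1 := by
    refine hval (i + t + 1) (μ + 1) (by omega) ?_
    have := hstep (i + t + 1)
    omega
  have fε : f (2 * μ - σ) = i + 2 * t := by
    have := hper (2 * μ - p - σ)
    rw [show 2 * μ - p - σ + p = 2 * μ - σ by ring, fε'] at this
    exact this
  have hσμ : σ < β (i + t) := by
    by_contra hcon
    have h1 : β (i + t) ≤ σ := by omega
    have h2 := (hβ (i + t) σ).1 h1
    omega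
  obtain ⟨q, hq⟩ : ∃ q, q = (σ - x) / p := ⟨_, rfl⟩
  have hmod := Int.emod_add_mul_ediv (σ - x) p
  have hm0 := Int.emod_nonneg (σ - x) (show p ≠ 0 by omega)
  have hm1 := Int.emod_lt_of_pos (σ - x) (show 0 < p by omega)
  rw [← hq] at hmod
  have hqp : (-q) * p = -(p * q) := by ring
  refine ⟨(μ + (-q) * p, μ - σ), ⟨?_, ?_, ?_, ?_⟩, ?_, ?_⟩
  · show 1 ≤ μ - σ
    omega
  · show x ≤ μ + (-q) * p - (μ - σ)
    rw [hqp]
    omega
  · show μ + (-q) * p + (μ - σ) ≤ x + 2 * p - 1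
    rw [hqp]
    omega
  · show f (μ + (-q) * p + (μ - σ)) + f (μ + (-q) * p - (μ - σ)) - 2 * f (μ + (-q) * p) = 0
    rw [show μ + (-q) * p + (μ - σ) = (2 * μ - σ) + (-q) * p by ring,
      show μ + (-q) * p - (μ - σ) = σ + (-q) * p by ring, HALF_mul hper, HALF_mul hper,
      HALF_mul hper, fε, fσ, fμ]
    ring
  · show f (μ + (-q) * p + 1) = f (μ + (-q) * p) + 1
    rw [show μ + (-q) * p + 1 = (μ + 1) + (-q) * p by ring, HALF_mul hper, HALF_mul hper, fμ1, fμ]
    ring
  · show f (μ + (-q) * p + (μ - σ)) - f (μ + (-q) * p) = t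
    rw [show μ + (-q) * p + (μ - σ) = (2 * μ - σ) + (-q) * p by ring, HALF_mul hper,
      HALF_mul hper, fε, fμ]
    ring

end Pool.Agent.helper97.AS
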